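import Pool.Agent.Helper5.BD.Defs

/-!
# MP_79ec0d_co, bounded degeneracy, module C6: the number of crossings of type `ABC`
-/

noncomputable section

open Finset Helper5.CR Classical

namespace Helper5.BD

variable {V E X : Type} [Fintype V] [Fintype E] [Fintype X] {C : CSys V E X} {d : ℕ}

/-- `f` joins the tops of the two edges of `x` -/
private def Rf (O : Ori C d) (x : X) (f : E) : Prop :=
  (O.lo f = O.hi (C.e₁ x) ∧ O.hi f = O.hi (C.e₂ x)) ∨
  (O.lo f = O.hi (C.e₂ x) ∧ O.hi f = O.hi (C.e₁ x))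

private lemma lo_ne_hi (O : Ori C d) (f : E) : O.lo f ≠ O.hi f := by
  intro h
  rcases O.ends f with ⟨h1, h2⟩ | ⟨h1, h2⟩
  · exact C.loop f (by rw [h1, h2, h])
  · exact C.loop f (by rw [h1, h2, h])

/-- the low ends of the edges of `x` with tops `lo f`, `hi f` -/
private def fm (O : Ori C d) (f : E) (x : X) : V × V :=
  if O.hi (C.e₁ x) = O.lo f then (O.lo (C.e₁ x), O.lo (C.e₂ x))
  else (O.lo (C.e₂ x), O.lo (C.e₁ x))

private lemma fm1 (O : Ori C d) (f : E) (x : X) (h : O.lo f = O.hi (C.e₁ x)) :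
    fm O f x = (O.lo (C.e₁ x), O.lo (C.e₂ x)) := by
  unfold fm
  rw [if_pos h.symm]

private lemma fm2 (O : Ori C d) (f : E) (x : X) (h : O.hi f = O.hi (C.e₁ x)) :
    fm O f x = (O.lo (C.e₂ x), O.lo (C.e₁ x)) := by
  unfold fm
  rw [if_neg]
  intro h'
  exact lo_ne_hi O f (by rw [h, h'])

private lemma card_f (O : Ori C d) (f : E) :
    (univ.filter (fun x => O.ABC x ∧ Rf O x f)).card ≤ (O.cm f).card ^ 2 := by
  have h1 : (univ.filter (fun x => O.ABC x ∧ Rf O x f)).card ≤ (O.cm f ×ˢ O.cm f).card := by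
    refine Finset.card_le_card_of_injOn (fm O f) ?_ ?_
    · intro x hx
      have hx' := (Finset.mem_filter.1 (Finset.mem_coe.1 hx)).2
      obtain ⟨⟨h1, h2, -⟩, h4⟩ := hx'
      rw [Finset.mem_coe, Finset.mem_product]
      rcases h4 with ⟨h5, h6⟩ | ⟨h5, h6⟩
      · rw [fm1 O f x h5]
        constructor
        · refine Finset.mem_filter.2 ⟨Finset.mem_univ _, ⟨C.e₁ x, rfl, h5.symm⟩, ?_⟩
          show O.arc (O.lo (C.e₁ x)) (O.hi f)
          rw [h6]
          exact h1
        · refine Finset.mem_filter.2 ⟨Finset.mem_univ _, ?_, ⟨C.e₂ x, rfl, h6.symm⟩⟩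
          show O.arc (O.lo (C.e₂ x)) (O.lo f)
          rw [h5]
          exact h2
      · rw [fm2 O f x h6]
        constructor
        · refine Finset.mem_filter.2 ⟨Finset.mem_univ _, ⟨C.e₂ x, rfl, h5.symm⟩, ?_⟩
          show O.arc (O.lo (C.e₂ x)) (O.hi f)
          rw [h6]
          exact h2
        · refine Finset.mem_filter.2 ⟨Finset.mem_univ _, ?_, ⟨C.e₁ x, rfl, h6.symm⟩⟩
          show O.arc (O.lo (C.e₁ x)) (O.lo f)
          rw [h5]
          exact h1
    · intro x hx y hy hxy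
      have hx4 := (Finset.mem_filter.1 (Finset.mem_coe.1 hx)).2.2
      have hy4 := (Finset.mem_filter.1 (Finset.mem_coe.1 hy)).2.2
      apply C.once
      rcases hx4 with ⟨a1, a2⟩ | ⟨a1, a2⟩
      · rcases hy4 with ⟨b1, b2⟩ | ⟨b1, b2⟩
        · rw [fm1 O f x a1, fm1 O f y b1] at hxy
          have e1 := congrArg Prod.fst hxy
          have e2 := congrArg Prod.snd hxy
          exact Or.inl ⟨O.uniq _ _ e1 (a1.symm.trans b1), O.uniq _ _ e2 (a2.symm.trans b2)⟩
        · rw [fm1 O f x a1, fm2 O f y b2] at hxy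
          have e1 := congrArg Prod.fst hxy
          have e2 := congrArg Prod.snd hxy
          exact Or.inr ⟨O.uniq _ _ e1 (a1.symm.trans b1), O.uniq _ _ e2 (a2.symm.trans b2)⟩
      · rcases hy4 with ⟨b1, b2⟩ | ⟨b1, b2⟩
        · rw [fm2 O f x a2, fm1 O f y b1] at hxy
          have e1 := congrArg Prod.fst hxy
          have e2 := congrArg Prod.snd hxy
          exact Or.inr ⟨O.uniq _ _ e2 (a2.symm.trans b2), O.uniq _ _ e1 (a1.symm.trans b1)⟩
        · rw [fm2 O f x a2, fm2 O f y b2] at hxy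
          have e1 := congrArg Prod.fst hxy
          have e2 := congrArg Prod.snd hxy
          exact Or.inl ⟨O.uniq _ _ e2 (a2.symm.trans b2), O.uniq _ _ e1 (a1.symm.trans b1)⟩
  rw [Finset.card_product] at h1
  rw [sq]
  exact h1

private lemma jn_of (O : Ori C d) (x : X) (f : E) (h : Rf O x f) : O.jn x f := by
  rcases h with ⟨h1, h2⟩ | ⟨h1, h2⟩
  · exact Or.inl ⟨Or.inr h1, Or.inr h2⟩
  · exact Or.inr ⟨Or.inr h2, Or.inr h1⟩

private lemma ex_f (O : Ori C d) (x : X) (h : O.ABC x) : ∃ f, Rf O x f := by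
  obtain ⟨-, -, h3⟩ := h
  rcases h3 with ⟨f, h1, h2⟩ | ⟨f, h1, h2⟩
  · exact ⟨f, Or.inl ⟨h1, h2⟩⟩
  · exact ⟨f, Or.inr ⟨h1, h2⟩⟩

/-- C6. -/
theorem card_ABC (O : Ori C d) (p : ℕ) :
    Ori.cnt (fun x => O.ABC x) ≤ p ^ 2 * Fintype.card E + ∑ f ∈ O.A2 p, O.cj f := by
  have hsub : (univ.filter (fun x => O.ABC x)) ⊆
      ((univ.filter (fun f : E => (O.cm f).card ≤ p)).biUnion
        (fun f => univ.filter (fun x => O.ABC x ∧ Rf O x f))) ∪
      ((O.A2 p).biUnion (fun f => univ.filter (fun x => O.jn x f))) := by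
    intro x hx
    have hx' := (Finset.mem_filter.1 hx).2
    obtain ⟨f, hf⟩ := ex_f O x hx'
    rw [Finset.mem_union]
    by_cases hp : (O.cm f).card ≤ p
    · left
      rw [Finset.mem_biUnion]
      exact ⟨f, Finset.mem_filter.2 ⟨Finset.mem_univ _, hp⟩,
        Finset.mem_filter.2 ⟨Finset.mem_univ _, hx', hf⟩⟩
    · right
      rw [Finset.mem_biUnion]
      exact ⟨f, Finset.mem_filter.2 ⟨Finset.mem_univ _, not_le.1 hp⟩,
        Finset.mem_filter.2 ⟨Finset.mem_univ _, jn_of O x f hf⟩⟩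
  unfold Ori.cnt
  refine (Finset.card_le_card hsub).trans ((Finset.card_union_le _ _).trans (add_le_add ?_ ?_))
  · refine Finset.card_biUnion_le.trans ?_
    calc ∑ f ∈ univ.filter (fun f : E => (O.cm f).card ≤ p),
          (univ.filter (fun x => O.ABC x ∧ Rf O x f)).card
        ≤ ∑ _f ∈ univ.filter (fun f : E => (O.cm f).card ≤ p), p ^ 2 := by
          refine Finset.sum_le_sum fun f hf => ?_
          exact (card_f O f).trans (Nat.pow_le_pow_left (Finset.mem_filter.1 hf).2 2)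
      _ = (univ.filter (fun f : E => (O.cm f).card ≤ p)).card * p ^ 2 := by
          rw [Finset.sum_const, smul_eq_mul]
      _ ≤ Fintype.card E * p ^ 2 := by
          refine Nat.mul_le_mul_right _ ?_
          rw [← Finset.card_univ]
          exact Finset.card_filter_le _ _
      _ = p ^ 2 * Fintype.card E := Nat.mul_comm _ _
  · exact Finset.card_biUnion_le

end Helper5.BD
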