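import Pool.Agent.Helper5.BD.RS

/-!
# Module M4: the hub property of the crossed edges of a good drawing
-/

noncomputable section

open Finset Helper5.CR Classical

namespace Helper5.BD

section M4

variable {V E : Type} [Fintype E] {src tgt : E → V}

/-- different crossed edges through the same point cross in the crossing system -/
theorem crs_of_ipts [Fintype V] (P : PreDrawing src tgt) (hG : P.Good)
    (hne : ∀ e, src e ≠ tgt e) (e f : Ec (P.toCSys hG hne)) (hef : e.1 ≠ f.1) {x : P.X}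
    (he : x ∈ ipts P e.1) (hf : x ∈ ipts P f.1) : Ori.crs (rs (P.toCSys hG hne)) e f := by
  have he' : P.thru e.1 x := he
  have hf' : P.thru f.1 x := hf
  have hx : P.passes x = 2 := P.passes_two_of_thru hG hef he' hf'
  have h1 := (P.thru_iff hG ⟨x, hx⟩ e.1).1 he'
  have h2 := (P.thru_iff hG ⟨x, hx⟩ f.1).1 hf'
  refine ⟨⟨x, hx⟩, ?_⟩
  rcases h1 with h1 | h1 <;> rcases h2 with h2 | h2
  · exact (hef (h1.trans h2.symm)).elim
  · exact Or.inl ⟨Subtype.ext h1.symm, Subtype.ext h2.symm⟩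
  · exact Or.inr ⟨Subtype.ext h2.symm, Subtype.ext h1.symm⟩
  · exact (hef (h1.trans h2.symm)).elim

/-- M4: the hub property of the crossed edges of a good drawing -/
theorem hub_rs [Fintype V] (P : PreDrawing src tgt) (hG : P.Good)
    (hne : ∀ e, src e ≠ tgt e) {d : ℕ} (O : Ori (rs (P.toCSys hG hne)) d)
    (hhub : ∀ (ι : Type) [Fintype ι] [Nonempty ι] (r b c : ι → V) (eb ec : ι → E)
      (_ : ∀ i, (src (eb i) = r i ∧ tgt (eb i) = b i) ∨ (src (eb i) = b i ∧ tgt (eb i) = r i))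
      (_ : ∀ i, (src (ec i) = r i ∧ tgt (ec i) = c i) ∨ (src (ec i) = c i ∧ tgt (ec i) = r i))
      (_ : Function.Injective r) (_ : ∀ i j, r i ≠ b j) (_ : ∀ i j, r i ≠ c j)
      (_ : ∀ i, b i ≠ c i)
      (_ : ∀ i j, i ≠ j → ¬ (b i = b j ∧ c i = c j) ∧ ¬ (b i = c j ∧ c i = b j))
      (_ : ∀ i j, ∀ e ∈ ({eb i, ec i} : Set E), ∀ f ∈ ({eb j, ec j} : Set E), e ≠ f →
        ∀ x, x ∈ ipts P e → x ∉ ipts P f),
      ∃ v, 1 ≤ (univ.filter (fun i => b i = v ∨ c i = v)).card ∧
        (univ.filter (fun i => b i = v ∨ c i = v)).card ≤ 6) : O.HubProp := by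
  intro J ρ hJ h1 h2 h3 h4
  choose eb heb using fun i : {p // p ∈ J} => (h1 i.1 i.2).1
  choose ec hec using fun i : {p // p ∈ J} => (h1 i.1 i.2).2.1
  have : Nonempty {p // p ∈ J} := hJ.elim fun p hp => ⟨⟨p, hp⟩⟩
  have ub : ∀ i, O.uses i.1 (ρ i.1) (eb i) := fun i => ⟨(heb i).1, Or.inl (heb i).2⟩
  have uc : ∀ i, O.uses i.1 (ρ i.1) (ec i) := fun i => ⟨(hec i).1, Or.inr (hec i).2⟩
  obtain ⟨v, hv1, hv2⟩ := hhub {p // p ∈ J} (fun i => ρ i.1) (fun i => i.1.1) (fun i => i.1.2)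
    (fun i => (eb i).1) (fun i => (ec i).1)
    (fun i => by
      have h := O.ends (eb i)
      rw [(heb i).1, (heb i).2] at h
      exact h)
    (fun i => by
      have h := O.ends (ec i)
      rw [(hec i).1, (hec i).2] at h
      exact h)
    (fun i j hij => by
      by_contra hne'
      exact (h2 i.1 i.2 j.1 j.2 (fun h => hne' (Subtype.ext h))).1 hij)
    (fun i j => (h3 i.1 i.2 j.1 j.2).1) (fun i j => (h3 i.1 i.2 j.1 j.2).2)
    (fun i => (h1 i.1 i.2).2.2)
    (fun i j hij => by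
      have hij' : i.1 ≠ j.1 := fun h => hij (Subtype.ext h)
      refine ⟨fun h => hij' (Prod.ext h.1 h.2), fun h => ?_⟩
      exact (h2 i.1 i.2 j.1 j.2 hij').2 (Prod.ext h.2.symm h.1.symm))
    (fun i j e he f hf hef x hx hx' => by
      rcases he with rfl | he
      · rcases hf with rfl | hf
        · exact h4 i.1 i.2 j.1 j.2 _ _ (ub i) (ub j) (crs_of_ipts P hG hne _ _ hef hx hx')
        · rw [Set.mem_singleton_iff] at hf
          subst hf
          exact h4 i.1 i.2 j.1 j.2 _ _ (ub i) (uc j) (crs_of_ipts P hG hne _ _ hef hx hx')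
      · rw [Set.mem_singleton_iff] at he
        subst he
        rcases hf with rfl | hf
        · exact h4 i.1 i.2 j.1 j.2 _ _ (uc i) (ub j) (crs_of_ipts P hG hne _ _ hef hx hx')
        · rw [Set.mem_singleton_iff] at hf
          subst hf
          exact h4 i.1 i.2 j.1 j.2 _ _ (uc i) (uc j) (crs_of_ipts P hG hne _ _ hef hx hx'))
  have hcard : (J.filter (fun p => p.1 = v ∨ p.2 = v)).card =
      (univ.filter (fun i : {p // p ∈ J} => i.1.1 = v ∨ i.1.2 = v)).card := by
    symm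
    refine Finset.card_bij (fun i _ => i.1) ?_ ?_ ?_
    · intro i hi
      rw [mem_filter] at hi ⊢
      exact ⟨i.2, hi.2⟩
    · intro i _ j _ hij
      exact Subtype.ext hij
    · intro p hp
      rw [mem_filter] at hp
      exact ⟨⟨p, hp.1⟩, mem_filter.2 ⟨mem_univ _, hp.2⟩, rfl⟩
  exact ⟨v, by rw [hcard]; exact hv1, by rw [hcard]; exact hv2⟩

end M4

end Helper5.BD
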